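import Mathlib
import Pool.Agent.Helper14D.Stm

/-!
# Four algebraic lemmas for the project of helper14 on `MP_8dbee4_ag`
-/

set_option autoImplicit false

open MvPolynomial

namespace Pool.Agent.Helper24.VD

open Pool.Agent.Helper14D

theorem t_val : S_val := by
  intro E _ A g h
  by_contra hg
  have hR : g ∉ (integralClosure A E).toSubring := by
    intro h1
    exact hg h1
  have _ : IsIntegrallyClosedIn (integralClosure A E).toSubring E := by
    rw [Subring.isIntegrallyClosedIn_iff]
    intro x hx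
    have h1 : IsIntegral (integralClosure A E) x := hx
    exact isIntegral_trans x h1
  obtain ⟨V, hV, hgV⟩ := Subring.exists_le_valuationSubring_of_isIntegrallyClosedIn hR
  apply hgV
  apply h V
  intro a ha
  apply hV
  have : IsIntegral A (algebraMap A E ⟨a, ha⟩) := isIntegral_algebraMap
  exact this

theorem t_ext : S_ext := by
  intro A B Ω _ _ _ hint _ _ hinj g
  have _ : (RingHom.ker g).IsPrime := RingHom.ker_isPrime g
  obtain ⟨P, -, hP, hPo⟩ := Ideal.exists_ideal_over_prime_of_isIntegral (S := B) (RingHom.ker g) ⊥ (by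
    rw [← RingHom.ker_eq_comap_bot, (RingHom.injective_iff_ker_eq_bot _).1 hinj]
    exact bot_le)
  -- work with the quotients
  have _ : P.LiesOver (RingHom.ker g) := ⟨hPo.symm⟩
  let _ : Algebra (A ⧸ RingHom.ker g) Ω := (RingHom.kerLift g).toAlgebra
  have hf : Function.Injective (algebraMap (A ⧸ RingHom.ker g) Ω) := RingHom.kerLift_injective g
  have _ : FaithfulSMul (A ⧸ RingHom.ker g) Ω := (faithfulSMul_iff_algebraMap_injective _ _).2 hf
  have hi2 : Algebra.IsIntegral (A ⧸ RingHom.ker g) (B ⧸ P) := inferInstance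
  have hinj2 : Function.Injective (algebraMap (A ⧸ RingHom.ker g) (B ⧸ P)) :=
    FaithfulSMul.algebraMap_injective _ _
  have _ : IsDomain (B ⧸ P) := inferInstance
  have _ : Module.IsTorsionFree (A ⧸ RingHom.ker g) (B ⧸ P) :=
    Module.isTorsionFree_iff_algebraMap_injective.2 hinj2
  let L : (B ⧸ P) →ₐ[A ⧸ RingHom.ker g] Ω := IsAlgClosed.lift
  refine ⟨L.toRingHom.comp (Ideal.Quotient.mk P), ?_⟩
  ext a
  have h1 : (Ideal.Quotient.mk P) (algebraMap A B a) =
      algebraMap (A ⧸ RingHom.ker g) (B ⧸ P) (Ideal.Quotient.mk _ a) := rfl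
  show L ((Ideal.Quotient.mk P) (algebraMap A B a)) = g a
  rw [h1, AlgHom.commutes]
  rfl

/-! ### base change -/

section bc

variable {K κ : Type} [Field K] [Field κ] [Algebra K κ] {ι : Type} (b : Module.Basis ι K κ)

open Classical in
/-- the coefficients of number `i` of the coefficients -/
noncomputable def Lam {X : Type} (i : ι) (p : MvPolynomial X κ) : MvPolynomial X K :=
  ∑ s ∈ p.support, monomial s (b.repr (coeff s p) i)

theorem coeff_Lam {X : Type} (i : ι) (p : MvPolynomial X κ) (s : X →₀ ℕ) :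
    coeff s (Lam b i p) = b.repr (coeff s p) i := by
  classical
  unfold Lam
  rw [coeff_sum]
  simp_rw [coeff_monomial]
  rw [Finset.sum_ite_eq']
  split_ifs with h
  · rfl
  · rw [notMem_support_iff.1 h, map_zero]
    rfl

theorem Lam_add {X : Type} (i : ι) (p q : MvPolynomial X κ) :
    Lam b i (p + q) = Lam b i p + Lam b i q := by
  ext s
  rw [coeff_Lam, coeff_add, coeff_add, coeff_Lam, coeff_Lam, map_add]
  rfl

theorem Lam_mul {X : Type} (i : ι) (x : κ) (r : MvPolynomial X K) :
    Lam b i (C x * MvPolynomial.map (algebraMap K κ) r) = C (b.repr x i) * r := by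
  ext s
  rw [coeff_Lam, coeff_C_mul, coeff_C_mul, coeff_map, mul_comm, ← Algebra.smul_def, map_smul,
    Finsupp.smul_apply, smul_eq_mul, mul_comm]

theorem Lam_aeval {σ τ : Type} (a : σ → MvPolynomial τ K) (i : ι) (p : MvPolynomial σ κ) :
    Lam b i (aeval (fun j => MvPolynomial.map (algebraMap K κ) (a j)) p) = aeval a (Lam b i p) := by
  induction p using MvPolynomial.induction_on' with
  | monomial s x =>
    have h1 : aeval (fun j => MvPolynomial.map (algebraMap K κ) (a j)) (monomial s x) =
        C x * MvPolynomial.map (algebraMap K κ) (s.prod fun j n => a j ^ n) := by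
      rw [aeval_monomial, Finsupp.prod, Finsupp.prod, map_prod]
      simp only [map_pow]
      rfl
    have h2 : (monomial s x : MvPolynomial σ κ) =
        C x * MvPolynomial.map (algebraMap K κ) (monomial s 1) := by
      rw [map_monomial, map_one, C_mul_monomial, mul_one]
    rw [h1, Lam_mul, h2, Lam_mul, map_mul, aeval_monomial, map_one, one_mul]
    congr 1
    rw [algHom_C]
    rfl
  | add p q hp hq =>
    rw [map_add, Lam_add, Lam_add, map_add, hp, hq]

theorem eq_sum_Lam {X : Type} (p : MvPolynomial X κ) :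
    ∃ F : Finset ι, p = ∑ i ∈ F, C (b i) * MvPolynomial.map (algebraMap K κ) (Lam b i p) := by
  classical
  refine ⟨p.support.biUnion fun s => (b.repr (coeff s p)).support, ?_⟩
  ext s
  rw [coeff_sum]
  simp_rw [coeff_C_mul, coeff_map, coeff_Lam]
  by_cases hs : s ∈ p.support
  · have h1 : coeff s p = ∑ i ∈ (b.repr (coeff s p)).support, b.repr (coeff s p) i • b i := by
      conv_lhs => rw [← b.linearCombination_repr (coeff s p)]
      rfl
    conv_lhs => rw [h1]
    rw [Finset.sum_subset (Finset.subset_biUnion_of_mem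
      (fun s => (b.repr (coeff s p)).support) hs)]
    · refine Finset.sum_congr rfl fun i _ => ?_
      rw [Algebra.smul_def, mul_comm]
    · intro i _ hi
      rw [Finsupp.notMem_support_iff.1 hi, zero_smul]
  · rw [notMem_support_iff.1 hs]
    symm
    refine Finset.sum_eq_zero fun i _ => ?_
    rw [map_zero, Finsupp.zero_apply, map_zero, mul_zero]

end bc

theorem t_bc : S_bc := by
  intro K κ _ _ φ σ τ a p hp
  let _ : Algebra K κ := φ.toAlgebra
  have hφ : φ = algebraMap K κ := rfl
  rw [hφ] at hp ⊢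
  let b := Module.Basis.ofVectorSpace K κ
  obtain ⟨F, hF⟩ := eq_sum_Lam b p
  rw [hF]
  refine Ideal.sum_mem _ fun i _ => Ideal.mul_mem_left _ _ (Ideal.mem_map_of_mem _ ?_)
  rw [RingHom.mem_ker]
  have h1 := Lam_aeval b a i p
  rw [hp] at h1
  show aeval a (Lam b i p) = 0
  rw [← h1]
  ext s
  rw [coeff_Lam, coeff_zero, map_zero]
  rfl

/-! ### reduction of the exponents -/

section red

variable {κ Ω : Type} [Field κ] [Field Ω] [Algebra κ Ω]

theorem prod_mem_prod' {X : Type} (s : Finset X) (I : X → Submodule κ Ω) (x : X → Ω)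
    (h : ∀ i ∈ s, x i ∈ I i) : ∏ i ∈ s, x i ∈ ∏ i ∈ s, I i := by
  classical
  induction s using Finset.induction_on with
  | empty => simp [Submodule.one_le.1 le_rfl]
  | insert a s ha ih =>
    rw [Finset.prod_insert ha, Finset.prod_insert ha]
    exact Submodule.mul_mem_mul (h a (Finset.mem_insert_self _ _))
      (ih fun i hi => h i (Finset.mem_insert_of_mem hi))

theorem pow_sup_le (P Q : Submodule κ Ω) (k : ℕ) :
    (P ⊔ Q) ^ (k + 1) ≤ P * (P ⊔ Q) ^ k ⊔ Q ^ (k + 1) := by
  induction k with
  | zero => simp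
  | succ k ih =>
    rw [pow_succ (P ⊔ Q) (k + 1)]
    refine (mul_le_mul' ih le_rfl).trans ?_
    rw [Submodule.sup_mul]
    refine sup_le ?_ ?_
    · rw [mul_assoc, ← pow_succ]
      exact le_sup_left
    · rw [Submodule.mul_sup]
      refine sup_le ?_ ?_
      · rw [mul_comm]
        refine le_trans ?_ le_sup_left
        exact mul_le_mul' le_rfl (pow_le_pow_left' le_sup_right (k + 1))
      · rw [← pow_succ]
        exact le_sup_right

theorem pow_span_le {D : ℕ} (q : Fin (D + 1) → Ω) (k : ℕ) :
    (Submodule.span κ (Set.range q)) ^ k ≤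
      Submodule.span κ {x | ∃ α : Fin (D + 1) → ℕ, ∑ j, α j = k ∧ x = ∏ j, q j ^ α j} := by
  induction k with
  | zero =>
    rw [pow_zero, Submodule.one_le]
    refine Submodule.subset_span ⟨fun _ => 0, by simp, by simp⟩
  | succ k ih =>
    rw [pow_succ]
    refine (mul_le_mul' ih le_rfl).trans ?_
    rw [Submodule.span_mul_span]
    refine Submodule.span_mono ?_
    rintro _ ⟨_, ⟨α, hα, rfl⟩, _, ⟨j, rfl⟩, rfl⟩
    refine ⟨α + Pi.single j 1, ?_, ?_⟩
    · simp [Finset.sum_add_distrib, hα]
    · simp only [Pi.add_apply, pow_add, Finset.prod_mul_distrib]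
      congr 1
      rw [Finset.prod_eq_single j]
      · simp
      · intro i _ hi
        simp [Pi.single_eq_of_ne hi]
      · simp

end red

theorem t_reduce : S_reduce := by
  intro κ Ω _ _ _ P Q D q hQ n hn hrel e
  have step : ∀ k, ∑ j, n j ≤ k → (P ⊔ Q) ^ (k + 1) ≤ P * (P ⊔ Q) ^ k := by
    intro k hk
    refine (pow_sup_le P Q k).trans (sup_le le_rfl ?_)
    rw [hQ]
    refine (pow_span_le q (k + 1)).trans ?_
    rw [Submodule.span_le]
    rintro _ ⟨α, hα, rfl⟩
    obtain ⟨j, hj⟩ : ∃ j, n j ≤ α j := by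
      by_contra hcon
      push Not at hcon
      have h1 : ∑ j, α j ≤ ∑ j, n j := Finset.sum_le_sum fun j _ => (hcon j).le
      omega
    obtain ⟨a, ha, hrel⟩ := hrel j
    have hqQ : ∀ i, q i ∈ P ⊔ Q := fun i => by
      refine Submodule.mem_sup_right ?_
      rw [hQ]
      exact Submodule.subset_span ⟨i, rfl⟩
    -- the rest
    have hrest : q j ^ (α j - n j) * ∏ i ∈ Finset.univ.erase j, q i ^ α i ∈
        (P ⊔ Q) ^ (k + 1 - n j) := by
      have h1 : ∏ i ∈ Finset.univ.erase j, q i ^ α i ∈
          (P ⊔ Q) ^ (∑ i ∈ Finset.univ.erase j, α i) := by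
        rw [← Finset.prod_pow_eq_pow_sum]
        exact prod_mem_prod' _ _ _ fun i _ => Submodule.pow_mem_pow _ (hqQ i) _
      have h2 := Submodule.mul_mem_mul (Submodule.pow_mem_pow _ (hqQ j) (α j - n j)) h1
      rw [← pow_add] at h2
      convert h2 using 2
      have h3 := Finset.add_sum_erase Finset.univ α (Finset.mem_univ j)
      omega
    have hprod : ∏ i, q i ^ α i =
        q j ^ n j * (q j ^ (α j - n j) * ∏ i ∈ Finset.univ.erase j, q i ^ α i) := by
      rw [← mul_assoc, ← pow_add, Nat.add_sub_cancel' hj, Finset.mul_prod_erase Finset.univ (fun i => q i ^ α i) (Finset.mem_univ j)]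
    rw [← hQ]
    show ∏ i, q i ^ α i ∈ P * (P ⊔ Q) ^ k
    rw [hprod, eq_neg_of_add_eq_zero_left hrel, neg_mul, Finset.sum_mul]
    refine Submodule.neg_mem _ (Submodule.sum_mem _ fun i hi => ?_)
    rw [Finset.mem_range] at hi
    have hαj : α j ≤ k + 1 := by
      rw [← hα]
      exact Finset.single_le_sum (fun _ _ => Nat.zero_le _) (Finset.mem_univ j)
    have h4 : a (i + 1) ∈ P * (P ⊔ Q) ^ i := by
      have h5 := ha (i + 1)
      rw [pow_succ'] at h5
      have h7 : P * P ^ i ≤ P * (P ⊔ Q) ^ i := mul_le_mul' le_rfl (pow_le_pow_left' le_sup_left i)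
      exact h7 h5
    have h6 := Submodule.mul_mem_mul (Submodule.mul_mem_mul h4
      (Submodule.pow_mem_pow _ (hqQ j) (n j - 1 - i))) hrest
    rw [mul_assoc, mul_assoc, ← pow_add, ← pow_add] at h6
    convert h6 using 3
    omega
  induction e with
  | zero => simp
  | succ e ih =>
    have h1 := step (∑ j, n j + e) (by omega)
    rw [← add_assoc]
    refine h1.trans ((mul_le_mul' le_rfl ih).trans ?_)
    rw [← mul_assoc, ← pow_succ']

end Pool.Agent.Helper24.VD

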